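import Pool.Agent.H73.KG.Defs

/-!
# Project KG: statements, first part (channel, trace potential)
-/

set_option autoImplicit false

open MeasureTheory Set Filter Topology
open scoped ContDiff

namespace Pool.Agent.H73.KG

open Pool.Agent.H84 Pool.Agent.H84.Sym Pool.Agent.H84.Sym.P2x Pool.Agent.H19.KL

section first

variable (E : Type) [NormedAddCommGroup E] [InnerProductSpace ℝ E]
    [FiniteDimensional ℝ E] [MeasurableSpace E] [BorelSpace E]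

/-- BAS: basic facts on `PP`, `cv`, `cm` -/
def BASStmt : Prop :=
  (∀ (U : E → ℝ) (t t' : ℝ), PP U t → 0 < t' → t' ≤ t → PP U t') ∧
  (∀ (U : E → ℝ) (t : ℝ), PP U t → GPC (mu U) (1 / t)) ∧
  (∀ (U : E → ℝ) (t : ℝ), PP U t → ∀ f : E → ℝ, ContDiff ℝ 1 f → Gr f →
    Gr (fun x => ‖fderiv ℝ f x‖) → ∀ L : ℝ, GPC (mu U) L →
    cv U f f ≤ L * ∫ x, ‖fderiv ℝ f x‖ ^ 2 ∂(mu U)) ∧
  (∀ (U : E → ℝ) (t : ℝ), PP U t → ∀ f g : E → ℝ, GC f → GC g →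
    cv U f g ^ 2 ≤ cv U f f * cv U g g ∧ 0 ≤ cv U f f ∧ cv U f g = cv U g f ∧
    cv U f g = ∫ x, (f x - ∫ z, f z ∂(mu U)) * (g x - ∫ z, g z ∂(mu U)) ∂(mu U)) ∧
  (∀ (U : E → ℝ) (t : ℝ), PP U t → CovLe U (1 / t)) ∧
  (∀ (U : E → ℝ) (t : ℝ), PP U t → ∀ (ι : Type) [Fintype ι] [DecidableEq ι]
    (b : OrthonormalBasis ι ℝ E), (cm b U).PosSemidef ∧
    ∀ c : ℝ, CovLe U c → (c • (1 : Matrix ι ι ℝ) - cm b U).PosSemidef) ∧
  (∀ (U : E → ℝ) (t : ℝ), PP U t → ∀ (ι : Type) [Fintype ι] [DecidableEq ι]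
    (b : OrthonormalBasis ι ℝ E) (c : ℝ),
    (c • (1 : Matrix ι ι ℝ) - cm b U).PosSemidef → CovLe U c)

/-- IMP: the improved Lichnerowicz inequality -/
def IMPStmt : Prop := ∀ (U : E → ℝ) (t a : ℝ), PP U t → 0 < a → CovLe U a →
  GPC (mu U) (Real.sqrt (a / t))

/-- TK0: the simple bound for third moments -/
def TK0Stmt : Prop := ∀ τ : ℝ, 0 < τ → TK E τ (4 / Real.sqrt τ)

/-- EIG: coordinates in which the covariance matrix is diagonal -/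
def EIGStmt : Prop := ∀ (U : E → ℝ) (t : ℝ), PP U t →
  ∀ (ι : Type) [Fintype ι] [DecidableEq ι] (_ : OrthonormalBasis ι ℝ E),
  ∃ (c : OrthonormalBasis ι ℝ E) (lam : ι → ℝ), (∀ i, 0 ≤ lam i) ∧
    cm c U = Matrix.diagonal lam

/-- WHI: third moments in whitened coordinates -/
def WHIStmt : Prop := ∀ (U : E → ℝ) (s K : ℝ), PP U s → TK E (s / 2) K →
  ∀ (ι : Type) [Fintype ι] [DecidableEq ι] (c : OrthonormalBasis ι ℝ E) (lam : ι → ℝ),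
  (∀ i, 0 ≤ lam i) → cm c U = Matrix.diagonal lam → ∀ i, ∑ j, ∑ k,
    (t3 U (c i) (c j) (c k)) ^ 2 / (max (lam i) (1 / 2) * max (lam j) (1 / 2) *
      max (lam k) (1 / 2)) ≤ K

/-- ZSM: the tilted integrals are smooth -/
def ZSMStmt : Prop := ∀ (U : E → ℝ) (t C : ℝ), Pot U t C → ∀ F : E → ℝ, GC F →
  ContDiffOn ℝ ∞ (fun p : ℝ × E => ZF U p.1 p.2 F) (Ioi (-t) ×ˢ univ) ∧
  ∀ s θ, -t < s → ∀ σ η, fderiv ℝ (fun p : ℝ × E => ZF U p.1 p.2 F) (s, θ) (σ, η) =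
    ZF U s θ (fun x => F x * (inner ℝ η x - σ * ‖x‖ ^ 2 / 2))

/-- PWB: the posterior measures -/
def PWBStmt : Prop := ∀ (U : E → ℝ) (t : ℝ), PP U t → (∀ s θ, 0 ≤ s → PP (pw U s θ) (t + s)) ∧
  (∀ s θ, 0 ≤ s → ∀ F : E → ℝ, ∫ x, F x ∂(mu (pw U s θ)) = pm U s θ F) ∧
  pw U 0 0 = U

/-- PMG: growth of the posterior means -/
def PMGStmt : Prop := ∀ (U : E → ℝ) (t : ℝ), PP U t → ∀ F : E → ℝ, GC F → ∀ S : ℝ,
  ∃ A B : ℝ, ∀ s ∈ Icc 0 S, ∀ θ : E, |pm U s θ F| ≤ A * Real.exp (B * ‖θ‖)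

/-- RGC: calculus of regular functions -/
def RGCStmt : Prop :=
  (∀ c : ℝ, RG (fun (_ : ℝ) (_ : E) => c)) ∧
  (∀ F G : ℝ → E → ℝ, RG F → RG G → RG (fun s θ => F s θ + G s θ)) ∧
  (∀ F G : ℝ → E → ℝ, RG F → RG G → RG (fun s θ => F s θ * G s θ)) ∧
  (∀ F : ℝ → E → ℝ, RG F → (∀ s θ, 0 ≤ s → 1 ≤ F s θ) → RG (fun s θ => (F s θ)⁻¹)) ∧
  (∀ (F G : ℝ → E → ℝ) (U : E → ℝ), RG F → RG G → ∀ (ι : Type) [Fintype ι]
    (b : OrthonormalBasis ι ℝ E) (s : ℝ) (θ : E), 0 < s →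
    gen b U (fun s θ => F s θ + G s θ) s θ = gen b U F s θ + gen b U G s θ ∧
    gen b U (fun s θ => F s θ * G s θ) s θ = F s θ * gen b U G s θ + G s θ * gen b U F s θ +
      ∑ i, D (b i) (F s) θ * D (b i) (G s) θ) ∧
  (∀ (F : ℝ → E → ℝ), RG F → ∀ s : ℝ, 0 < s → GC (F s) ∧ ContDiff ℝ 2 (F s) ∧
    Gr (fun θ => ‖fderiv ℝ (F s) θ‖) ∧ ∀ e : E, GC (fun θ => D e (D e (F s)) θ)) ∧
  (∀ F G : ℝ → E → ℝ, RG F → (∀ s θ, 0 ≤ s → F s θ = G s θ) → RG G)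

/-- RGP: the posterior means are regular -/
def RGPStmt : Prop := ∀ (U : E → ℝ) (t : ℝ), PP U t → ∀ F : E → ℝ, GC F →
  RG (fun s θ => pm U s θ F) ∧
  (∀ s θ η, 0 ≤ s → DifferentiableAt ℝ (fun θ => pm U s θ F) θ ∧
    fderiv ℝ (fun θ => pm U s θ F) θ η = cv (pw U s θ) F (li η)) ∧
  ∀ (ι : Type) [Fintype ι] (b : OrthonormalBasis ι ℝ E) (s : ℝ) (θ : E), 0 < s →
    gen b U (fun s θ => pm U s θ F) s θ = 0

/-- BAY: the formula of Bayes and basic facts on `EX` -/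
def BAYStmt : Prop := ∀ (U : E → ℝ) (t : ℝ), PP U t → ∀ s : ℝ, 0 ≤ s →
  (∀ F : E → ℝ, GC F → GC (fun x : E => ∫ g, F (s • x + Real.sqrt s • g) ∂(mu (gp (E := E))))) ∧
  (∀ F G : E → ℝ, GC F → GC G → EX U s (fun θ => F θ + G θ) = EX U s F + EX U s G) ∧
  (∀ (c : ℝ) (F : E → ℝ), EX U s (fun θ => c * F θ) = c * EX U s F) ∧
  (∀ c : ℝ, EX U s (fun _ => c) = c) ∧
  (∀ F G : E → ℝ, GC F → GC G → (∀ θ, F θ ≤ G θ) → EX U s F ≤ EX U s G) ∧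
  (∀ F h : E → ℝ, GC F → GC h →
    ∫ x, h x * (∫ g, F (s • x + Real.sqrt s • g) ∂(mu (gp (E := E)))) ∂(mu U) =
      EX U s (fun θ => F θ * pm U s θ h)) ∧
  (∀ h : E → ℝ, GC h → EX U s (fun θ => pm U s θ h) = ∫ x, h x ∂(mu U))

/-- DYN: the time derivative of the means over the channel -/
def DYNStmt : Prop := ∀ (U : E → ℝ) (t : ℝ), PP U t → ∀ G : ℝ → E → ℝ, RG G →
  (∀ (ι : Type) [Fintype ι] (b : OrthonormalBasis ι ℝ E), ∀ s : ℝ, 0 < s →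
    HasDerivAt (fun s => EX U s (G s)) (EX U s (gen b U G s)) s) ∧
  ContinuousOn (fun s => EX U s (G s)) (Ici 0) ∧ EX U 0 (G 0) = G 0 0

/-- CVR: posterior covariances are regular -/
def CVRStmt : Prop := ∀ (U : E → ℝ) (t : ℝ), PP U t → ∀ f g : E → ℝ, GC f → GC g →
  RG (fun s θ => cv (pw U s θ) f g)

/-- COV: decomposition of the covariance along the channel -/
def COVStmt : Prop := ∀ (U : E → ℝ) (t : ℝ), PP U t → ∀ f g : E → ℝ, GC f → GC g →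
  ∀ (ι : Type) [Fintype ι] (b : OrthonormalBasis ι ℝ E) (T : ℝ), 0 < T →
  IntervalIntegrable (fun s => EX U s (fun θ => ∑ i, cv (pw U s θ) f (li (b i)) *
      cv (pw U s θ) g (li (b i)))) volume 0 T ∧
  cv U f g = EX U T (fun θ => cv (pw U T θ) f g) +
    ∫ s in (0:ℝ)..T, EX U s (fun θ => ∑ i, cv (pw U s θ) f (li (b i)) *
      cv (pw U s θ) g (li (b i)))

/-- AAG: the evolution of the covariance matrix -/
def AAGStmt : Prop := ∀ (U : E → ℝ) (t : ℝ), PP U t → ∀ (ι : Type) [Fintype ι] [DecidableEq ι]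
  (b : OrthonormalBasis ι ℝ E) (i j : ι),
  RG (fun s θ => cm b (pw U s θ) i j) ∧
  (∀ s θ, 0 < s → gen b U (fun s θ => cm b (pw U s θ) i j) s θ =
    -((cm b (pw U s θ)) ^ 2) i j) ∧
  ∀ s θ η, 0 ≤ s → fderiv ℝ (fun θ => cm b (pw U s θ) i j) θ η = t3 (pw U s θ) η (b i) (b j)

/-- FPB: the evolution of `F_p` -/
def FPBStmt : Prop := ∀ (U : E → ℝ) (t : ℝ), PP U t → ∀ (ι : Type) [Fintype ι] [DecidableEq ι]
  (b : OrthonormalBasis ι ℝ E) (p : ℕ), 1 ≤ p →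
  RG (fun s θ => FP p (cm b (pw U s θ))) ∧
  ∀ s θ, 0 < s → gen b U (fun s θ => FP p (cm b (pw U s θ))) s θ =
    -(dFP p (cm b (pw U s θ)) * (cm b (pw U s θ)) ^ 2).trace +
    (∑ k, QQ p (cm b (pw U s θ)) (Matrix.of fun i j => t3 (pw U s θ) (b k) (b i) (b j))) / 2

/-- INV: independence of the basis -/
def INVStmt : Prop :=
  (∀ (U : E → ℝ) (G : ℝ → E → ℝ), RG G → ∀ (ι : Type) [Fintype ι]
    (b c : OrthonormalBasis ι ℝ E) (s : ℝ) (θ : E), 0 < s → gen b U G s θ = gen c U G s θ) ∧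
  (∀ (U : E → ℝ) (t : ℝ), PP U t → ∀ (ι : Type) [Fintype ι] [DecidableEq ι]
    (b c : OrthonormalBasis ι ℝ E) (p : ℕ), FP p (cm b U) = FP p (cm c U))

/-- GIN: the differential inequality for `F_p` -/
def GINStmt : Prop := ∀ (U : E → ℝ) (t : ℝ), PP U t → ∀ (s K : ℝ), 0 < s → TK E (s / 2) K →
  ∀ (ι : Type) [Fintype ι] [DecidableEq ι] (b : OrthonormalBasis ι ℝ E) (p : ℕ), 1 ≤ p → ∀ θ : E,
  gen b U (fun s θ => FP p (cm b (pw U s θ))) s θ ≤ 9 / 2 * p * (p + 1) * K *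
    (FP p (cm b (pw U s θ)) + Fintype.card ι * (1 / 3) ^ p)

/-- TRP: the growth of the trace potential -/
def TRPStmt : Prop := ∀ (U : E → ℝ) (t : ℝ), PP U t → ∀ (ι : Type) [Fintype ι] [DecidableEq ι]
  (b : OrthonormalBasis ι ℝ E) (S : ℝ) (Φ k : ℝ → ℝ), 0 < S → ContinuousOn Φ (Icc 0 S) → Φ 0 = 0 →
  (∀ s ∈ Ioo 0 S, HasDerivAt Φ (k s) s ∧ 0 ≤ k s ∧ TK E (s / 2) (k s)) → ∀ p : ℕ, 1 ≤ p →
  ∀ s ∈ Icc 0 S, EX U s (fun θ => FP p (cm b (pw U s θ))) + Fintype.card ι * (1 / 3) ^ p ≤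
    (FP p (cm b U) + Fintype.card ι * (1 / 3) ^ p) * Real.exp (9 / 2 * p * (p + 1) * Φ s)

end first

/-- MTD: derivatives of `F_p` along a curve of matrices -/
def MTDStmt : Prop := ∀ (ι : Type) [Fintype ι] [DecidableEq ι] (A A' : ℝ → Matrix ι ι ℝ)
  (A'' : Matrix ι ι ℝ) (t : ℝ) (p : ℕ), 1 ≤ p →
  (∀ᶠ r in 𝓝 t, IsUnit (1 + A r).det ∧ ∀ i j, HasDerivAt (fun r => A r i j) (A' r i j) r) →
  (∀ i j, HasDerivAt (fun r => A' r i j) (A'' i j) t) →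
  HasDerivAt (fun r => FP p (A r)) (dFP p (A t) * A' t).trace t ∧
  HasDerivAt (fun r => (dFP p (A r) * A' r).trace)
    (QQ p (A t) (A' t) + (dFP p (A t) * A'').trace) t

/-- MTI: the algebraic inequality -/
def MTIStmt : Prop := ∀ (ι : Type) [Fintype ι] [DecidableEq ι] (lam : ι → ℝ)
  (T : ι → ι → ι → ℝ) (K : ℝ) (p : ℕ), (∀ i, 0 ≤ lam i) → 1 ≤ p →
  (∀ i j k, T i j k = T j i k ∧ T i j k = T i k j) →
  (∀ i, ∑ j, ∑ k, (T i j k) ^ 2 / (max (lam i) (1 / 2) * max (lam j) (1 / 2) *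
    max (lam k) (1 / 2)) ≤ K) →
  -(dFP p (Matrix.diagonal lam) * (Matrix.diagonal lam) ^ 2).trace +
    (∑ k, QQ p (Matrix.diagonal lam) (Matrix.of fun i j => T k i j)) / 2 ≤
  9 / 2 * p * (p + 1) * K * (FP p (Matrix.diagonal lam) + Fintype.card ι * (1 / 3) ^ p)

/-- FPI: bounds of `F_p` from above and of the trace of the cube by `F_p` -/
def FPIStmt : Prop := ∀ (ι : Type) [Fintype ι] [DecidableEq ι] (A : Matrix ι ι ℝ),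
  A.PosSemidef → ∀ p : ℕ, 1 ≤ p →
  0 ≤ FP p A ∧
  (∀ (R : ℝ) (B : Matrix ι ι ℝ), 0 < R → (R • (1 : Matrix ι ι ℝ) - A).PosSemidef →
    B.IsHermitian → ((5:ℝ) • (1 : Matrix ι ι ℝ) - B).PosSemidef →
    FP p A ≤ 7 * (7 / 8) ^ p * Fintype.card ι + R / 4 * ∑ i, ∑ j, (A i j - B i j) ^ 2) ∧
  (∀ c : ℝ, 0 ≤ c → (c • (1 : Matrix ι ι ℝ) - A).PosSemidef →
    FP p A ≤ c * (c / (1 + c)) ^ p * Fintype.card ι) ∧
  (∀ R : ℝ, 0 < R → (R • (1 : Matrix ι ι ℝ) - A).PosSemidef →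
    (A ^ 3).trace ≤ 35 ^ 3 * Fintype.card ι + R ^ 2 * (36 / 35) ^ p * FP p A) ∧
  (((3 + (4 / 3) ^ p * FP p A) • (1 : Matrix ι ι ℝ) - A).PosSemidef)

/-- QBD: the constant `C` bounds the trace integrals of the channel -/
def QBD (C : ℝ) : Prop := ∀ (E : Type) [NormedAddCommGroup E] [InnerProductSpace ℝ E]
    [FiniteDimensional ℝ E] [MeasurableSpace E] [BorelSpace E] (U : E → ℝ) (t : ℝ), PP U t →
  t ≤ 1 → ∀ (ι : Type) [Fintype ι] [DecidableEq ι] (b : OrthonormalBasis ι ℝ E)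
  (B : Matrix ι ι ℝ), B.IsHermitian → ((5:ℝ) • (1 : Matrix ι ι ℝ) - B).PosSemidef →
  IntervalIntegrable (fun s => s ^ (-(1:ℝ) / 2) *
    EX U s (fun θ => ((cm b (pw U s θ)) ^ 3).trace)) volume 0 1 ∧
  EX U 1 (fun θ => (cm b (pw U 1 θ)).trace) + ∫ s in (0:ℝ)..1, s ^ (-(1:ℝ) / 2) *
    EX U s (fun θ => ((cm b (pw U s θ)) ^ 3).trace) ≤
  C * (Fintype.card ι + (∑ i, ∑ j, (cm b U i j - B i j) ^ 2) / t ^ 4)

/-- TRQ: such a constant exists -/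
def TRQStmt : Prop := ∃ C : ℝ, 1 ≤ C ∧ QBD C

/-- HBB: the `H^{-1}` bound -/
def HBBStmt (E : Type) [NormedAddCommGroup E] [InnerProductSpace ℝ E]
    [FiniteDimensional ℝ E] [MeasurableSpace E] [BorelSpace E] : Prop :=
  ∀ (U : E → ℝ) (t : ℝ), PP U t → ∀ (ι : Type) [Fintype ι] [DecidableEq ι]
  (b : OrthonormalBasis ι ℝ E) (m : ι → ℝ) (β : ℝ), (∀ i, |m i| ≤ β) →
  IntervalIntegrable (fun s => s ^ (-(1:ℝ) / 2) *
    EX U s (fun θ => ((cm b (pw U s θ)) ^ 3).trace)) volume 0 1 →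
  ∀ φ : E → ℝ, Tst φ →
  4 * (∑ i, m i * cv U (li (b i)) (D (b i) φ)) - ∫ x, (∑ i, ‖fderiv ℝ (D (b i) φ) x‖ ^ 2) ∂(mu U) ≤
  16 * β ^ 2 * (EX U 1 (fun θ => (cm b (pw U 1 θ)).trace) + ∫ s in (0:ℝ)..1, s ^ (-(1:ℝ) / 2) *
    EX U s (fun θ => ((cm b (pw U s θ)) ^ 3).trace))

/-- KBD: the constant `C` bounds the dual quantity -/
def KBD (C : ℝ) : Prop := ∀ (E : Type) [NormedAddCommGroup E] [InnerProductSpace ℝ E]
    [FiniteDimensional ℝ E] [MeasurableSpace E] [BorelSpace E] (U : E → ℝ) (t : ℝ), PP U t →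
  t ≤ 1 → ∀ (ι : Type) [Fintype ι] [DecidableEq ι] (b : OrthonormalBasis ι ℝ E)
  (B : Matrix ι ι ℝ), B.IsHermitian → ((5:ℝ) • (1 : Matrix ι ι ℝ) - B).PosSemidef →
  ∀ (m : ι → ℝ) (β : ℝ), (∀ i, |m i| ≤ β) → ∀ φ : E → ℝ, Tst φ →
  4 * (∑ i, m i * cv U (li (b i)) (D (b i) φ)) - ∫ x, (∑ i, ‖fderiv ℝ (D (b i) φ) x‖ ^ 2) ∂(mu U) ≤
  C * β ^ 2 * (Fintype.card ι + (∑ i, ∑ j, (cm b U i j - B i j) ^ 2) / t ^ 4)

/-- KFB: such a constant exists -/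
def KFBStmt : Prop := ∃ C : ℝ, 1 ≤ C ∧ KBD C

end Pool.Agent.H73.KG
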