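import Pool.Agent.H73.KG.Stmts2
import Pool.Agent.H15.KG.SPC

/-!
# Project KG, module ROW: the row of `θ`
-/

set_option autoImplicit false
set_option linter.unusedSectionVars false

open MeasureTheory Set Filter Topology
open scoped ContDiff

namespace Pool.Agent.H73.KG

open Pool.Agent.H84 Pool.Agent.H84.Sym Pool.Agent.H84.Sym.P2x Pool.Agent.H19.KL

theorem ROW_one {E : Type} [NormedAddCommGroup E] [InnerProductSpace ℝ E]
    [FiniteDimensional ℝ E] [MeasurableSpace E] [BorelSpace E] {C : ℝ}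
    {U : E → ℝ}
    (H : ∀ (κ : Type) [Fintype κ] (e : κ → E), Orthonormal ℝ e → ∀ (m : κ → ℝ) (β : ℝ),
      (∀ i, |m i| ≤ β) → 0 ≤ β → ∀ θ : E, ‖θ‖ = 1 →
      |∑ i, m i * t3 U θ (e i) (e i)| ≤ C * β * Real.sqrt (Fintype.card κ + 1))
    (v θ : E) (hv : ‖v‖ = 1) (hθ : ‖θ‖ = 1) : (t3 U v θ θ) ^ 2 ≤ 2 * C ^ 2 := by
  have ho : Orthonormal ℝ (fun _ : Unit => θ) := by
    refine ⟨fun _ => hθ, fun i j hij => ?_⟩
    exact absurd (Subsingleton.elim i j) hij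
  have h := H Unit (fun _ => θ) ho (fun _ => 1) 1 (fun _ => by simp) zero_le_one v hv
  simp only [Finset.univ_unique, Finset.sum_singleton, one_mul, mul_one, Fintype.card_unit,
    Nat.cast_one] at h
  have h2 : (t3 U v θ θ) ^ 2 ≤ (C * Real.sqrt (1 + 1)) ^ 2 := by
    rw [← sq_abs]
    exact pow_le_pow_left₀ (abs_nonneg _) h 2
  rw [mul_pow, Real.sq_sqrt (by norm_num)] at h2
  linarith

theorem row_thm (h : T1MStmt) : ROWStmt := by
  obtain ⟨C, hC, H⟩ := h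
  refine ⟨2 * C ^ 2, by nlinarith, ?_⟩
  intro E _ _ _ _ _ U t hU hcov θ hθ
  have H1 := H E U t hU hcov
  refine ⟨ROW_one H1 θ θ hθ hθ, ?_⟩
  intro κ _ e he _
  obtain ⟨⟨C', hpot⟩, -⟩ := hU.1
  set S := ∑ i, (t3 U θ θ (e i)) ^ 2 with hS
  have hS0 : 0 ≤ S := Finset.sum_nonneg fun i _ => sq_nonneg _
  rcases hS0.eq_or_lt with h0 | hpos
  · rw [← h0]
    positivity
  set v0 : E := ∑ i, t3 U θ θ (e i) • e i with hv0
  have hn : ‖v0‖ ^ 2 = S := by
    rw [← real_inner_self_eq_norm_sq, hv0, he.inner_sum]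
    simp only [hS, conj_trivial]
    exact Finset.sum_congr rfl fun i _ => by ring
  have hT : t3 U θ θ v0 = S := by
    have : SPC_B hpot θ θ v0 = ∑ i, t3 U θ θ (e i) * SPC_B hpot θ θ (e i) := by
      rw [hv0, map_sum]
      exact Finset.sum_congr rfl fun i _ => by rw [map_smul, smul_eq_mul]
    rw [SPC_B_apply] at this
    rw [this, hS]
    exact Finset.sum_congr rfl fun i _ => by rw [SPC_B_apply]; ring
  have hsq : 0 < Real.sqrt S := Real.sqrt_pos.2 hpos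
  have hn' : ‖v0‖ = Real.sqrt S := by
    rw [← hn, Real.sqrt_sq (norm_nonneg _)]
  have hv : ‖(Real.sqrt S)⁻¹ • v0‖ = 1 := by
    rw [norm_smul, Real.norm_eq_abs, abs_of_pos (inv_pos.2 hsq), hn']
    exact inv_mul_cancel₀ hsq.ne'
  have h1 := ROW_one H1 ((Real.sqrt S)⁻¹ • v0) θ hv hθ
  have h2 : t3 U ((Real.sqrt S)⁻¹ • v0) θ θ = (Real.sqrt S)⁻¹ * S := by
    have : t3 U ((Real.sqrt S)⁻¹ • v0) θ θ = t3 U θ θ ((Real.sqrt S)⁻¹ • v0) := by
      unfold t3
      congr 1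
      funext x
      ring
    rw [this, SPC_smul, hT]
  rw [h2, mul_pow, inv_pow, Real.sq_sqrt hS0] at h1
  have h3 : S⁻¹ * S ^ 2 = S := by
    field_simp
  rw [h3] at h1
  exact h1

end Pool.Agent.H73.KG
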