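import Pool.Agent.H73.KG.Final
import Pool.Agent.H33.KG.BAS
import Pool.Agent.H2.KG.IMP
import Pool.Agent.H12.KG.TK0
import Pool.Agent.H2.KG.EIG
import Pool.Agent.H85.KG.WHI
import Pool.Agent.H62.KG.ZSM
import Pool.Agent.H85.KG.PWB
import Pool.Agent.H85.KG.PMG
import Pool.Agent.H83.KG.RGC
import Pool.Agent.H85.KG.RGP
import Pool.Agent.H72.KG.BAY
import Pool.Agent.H85.KG.DYN
import Pool.Agent.H34.KG.CVR
import Pool.Agent.H88.KG.COV
import Pool.Agent.H85.KG.AAG
import Pool.Agent.H4.KG.MTD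
import Pool.Agent.H4.KG.FPB
import Pool.Agent.H33.KG.INV
import Pool.Agent.H47.KG.MTI
import Pool.Agent.H73.KG.GIN
import Pool.Agent.H59.KG.TRP
import Pool.Agent.H72.KG.FPI
import Pool.Agent.H47.KG.TRQ
import Pool.Agent.H72.KG.HBB
import Pool.Agent.H22.KG.KFB
import Pool.Agent.H82.KG.MGL
import Pool.Agent.H9.KG.OSF
import Pool.Agent.H75.KG.OSL
import Pool.Agent.H33.KG.TSP
import Pool.Agent.H3.KG.MGA
import Pool.Agent.H49.KG.OS0
import Pool.Agent.H15.KG.SPC
import Pool.Agent.H68.KG.CVLF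
import Pool.Agent.H33.KG.T1P
import Pool.Agent.H62.KG.T1M
import Pool.Agent.H73.KG.ROW
import Pool.Agent.H18.KG.CHI
import Pool.Agent.H33.KG.CHF
import Pool.Agent.H45.KG.NUM
import Pool.Agent.H87.KG.THA
import Pool.Agent.H49.KG.TKL
import Pool.Agent.H12.KG.THB
import Pool.Agent.H53.KG.THC
import Pool.Agent.H44.KG.SCL
import Pool.Agent.H27.KG.LEX
import Pool.Agent.H15.KG.BOD
import Pool.Agent.H27.KG.KRE

/-! # Project KG: the assembly (all modules) -/

set_option autoImplicit false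
set_option linter.unusedSectionVars false

open MeasureTheory Set Filter Topology
open scoped ContDiff

namespace Pool.Agent.H73.KG

open Pool.Agent.H84 Pool.Agent.H84.Sym Pool.Agent.H84.Sym.P2x Pool.Agent.H19.KL
open Pool.Agent.H85.KG Pool.Agent.H4.KG Pool.Agent.H47.KG Pool.Agent.H59.KG Pool.Agent.H87.KG

theorem all_thm  : BODStmt ∧ (∀ (E : Type) [NormedAddCommGroup E] [InnerProductSpace ℝ E] [FiniteDimensional ℝ E] [MeasurableSpace E] [BorelSpace E], KREStmt E) := by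
  have qBAS : ∀ (E : Type) [NormedAddCommGroup E] [InnerProductSpace ℝ E] [FiniteDimensional ℝ E] [MeasurableSpace E] [BorelSpace E], BASStmt E := fun E _ _ _ _ _ => bas_thm E
  have qIMP : ∀ (E : Type) [NormedAddCommGroup E] [InnerProductSpace ℝ E] [FiniteDimensional ℝ E] [MeasurableSpace E] [BorelSpace E], IMPStmt E := fun E _ _ _ _ _ => imp_thm E
  have qTK0 : ∀ (E : Type) [NormedAddCommGroup E] [InnerProductSpace ℝ E] [FiniteDimensional ℝ E] [MeasurableSpace E] [BorelSpace E], TK0Stmt E := fun E _ _ _ _ _ => tk0_thm E (qBAS E) (qIMP E)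
  have qEIG : ∀ (E : Type) [NormedAddCommGroup E] [InnerProductSpace ℝ E] [FiniteDimensional ℝ E] [MeasurableSpace E] [BorelSpace E], EIGStmt E := fun E _ _ _ _ _ => eig_thm E
  have qWHI : ∀ (E : Type) [NormedAddCommGroup E] [InnerProductSpace ℝ E] [FiniteDimensional ℝ E] [MeasurableSpace E] [BorelSpace E], WHIStmt E := fun E _ _ _ _ _ => whi_thm E (qBAS E)
  have qZSM : ∀ (E : Type) [NormedAddCommGroup E] [InnerProductSpace ℝ E] [FiniteDimensional ℝ E] [MeasurableSpace E] [BorelSpace E], ZSMStmt E := fun E _ _ _ _ _ => zsm_thm E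
  have qPWB : ∀ (E : Type) [NormedAddCommGroup E] [InnerProductSpace ℝ E] [FiniteDimensional ℝ E] [MeasurableSpace E] [BorelSpace E], PWBStmt E := fun E _ _ _ _ _ => pwb_thm E
  have qPMG : ∀ (E : Type) [NormedAddCommGroup E] [InnerProductSpace ℝ E] [FiniteDimensional ℝ E] [MeasurableSpace E] [BorelSpace E], PMGStmt E := fun E _ _ _ _ _ => pmg_thm E (qBAS E) (qZSM E)
  have qRGC : ∀ (E : Type) [NormedAddCommGroup E] [InnerProductSpace ℝ E] [FiniteDimensional ℝ E] [MeasurableSpace E] [BorelSpace E], RGCStmt E := fun E _ _ _ _ _ => rgc_thm E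
  have qRGP : ∀ (E : Type) [NormedAddCommGroup E] [InnerProductSpace ℝ E] [FiniteDimensional ℝ E] [MeasurableSpace E] [BorelSpace E], RGPStmt E := fun E _ _ _ _ _ => rgp_thm E (qZSM E) (qPMG E)
  have qBAY : ∀ (E : Type) [NormedAddCommGroup E] [InnerProductSpace ℝ E] [FiniteDimensional ℝ E] [MeasurableSpace E] [BorelSpace E], BAYStmt E := fun E _ _ _ _ _ => bay_thm E (qPWB E) (qPMG E) (qRGP E)
  have qDYN : ∀ (E : Type) [NormedAddCommGroup E] [InnerProductSpace ℝ E] [FiniteDimensional ℝ E] [MeasurableSpace E] [BorelSpace E], DYNStmt E := fun E _ _ _ _ _ => dyn_thm E (qRGC E) (qRGP E) (qBAY E)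
  have qCVR : ∀ (E : Type) [NormedAddCommGroup E] [InnerProductSpace ℝ E] [FiniteDimensional ℝ E] [MeasurableSpace E] [BorelSpace E], CVRStmt E := fun E _ _ _ _ _ => cvr_thm E (qPWB E) (qRGC E) (qRGP E)
  have qCOV : ∀ (E : Type) [NormedAddCommGroup E] [InnerProductSpace ℝ E] [FiniteDimensional ℝ E] [MeasurableSpace E] [BorelSpace E], COVStmt E := fun E _ _ _ _ _ => cov_thm E (qPWB E) (qRGC E) (qRGP E) (qDYN E) (qBAY E) (qCVR E)
  have qAAG : ∀ (E : Type) [NormedAddCommGroup E] [InnerProductSpace ℝ E] [FiniteDimensional ℝ E] [MeasurableSpace E] [BorelSpace E], AAGStmt E := fun E _ _ _ _ _ => aag_thm E (qRGC E) (qRGP E) (qPWB E)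
  have qMTD : MTDStmt := mtd_thm 
  have qFPB : ∀ (E : Type) [NormedAddCommGroup E] [InnerProductSpace ℝ E] [FiniteDimensional ℝ E] [MeasurableSpace E] [BorelSpace E], FPBStmt E := fun E _ _ _ _ _ => fpb_thm E (qRGC E) (qAAG E) (qBAS E) (qPWB E)
  have qINV : ∀ (E : Type) [NormedAddCommGroup E] [InnerProductSpace ℝ E] [FiniteDimensional ℝ E] [MeasurableSpace E] [BorelSpace E], INVStmt' E := fun E _ _ _ _ _ => inv_thm' E
  have qMTI : MTIStmt := mti_thm 
  have qGIN : ∀ (E : Type) [NormedAddCommGroup E] [InnerProductSpace ℝ E] [FiniteDimensional ℝ E] [MeasurableSpace E] [BorelSpace E], GINStmt E := fun E _ _ _ _ _ => gin_thm' E (qBAS E) (qPWB E) (qEIG E) (qWHI E) qMTI (qFPB E) (qINV E)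
  have qTRP : ∀ (E : Type) [NormedAddCommGroup E] [InnerProductSpace ℝ E] [FiniteDimensional ℝ E] [MeasurableSpace E] [BorelSpace E], TRPStmt E := fun E _ _ _ _ _ => trp_thm (qPWB E) (qRGC E) (qRGP E) (qBAY E) (qDYN E) (qFPB E) (qGIN E)
  have qFPI : FPIStmt := fpi_thm 
  have qTRQ : TRQStmt := trq_thm qBAS qPWB qRGC qBAY qDYN qAAG qFPB qFPI qTK0 qTRP
  have qHBB : ∀ (E : Type) [NormedAddCommGroup E] [InnerProductSpace ℝ E] [FiniteDimensional ℝ E] [MeasurableSpace E] [BorelSpace E], HBBStmt E := fun E _ _ _ _ _ => hbb_thm E (qBAS E) (qPWB E) (qRGC E) (qRGP E) (qBAY E) (qCVR E) (qCOV E) (qAAG E)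
  have qKFB : KFBStmt := kfb_thm qHBB qTRQ
  have qMGL : ∀ (E : Type) [NormedAddCommGroup E] [InnerProductSpace ℝ E] [FiniteDimensional ℝ E] [MeasurableSpace E] [BorelSpace E], MGLStmt E := fun E _ _ _ _ _ => mgl_thm E
  have qOSF : ∀ (E : Type) [NormedAddCommGroup E] [InnerProductSpace ℝ E] [FiniteDimensional ℝ E] [MeasurableSpace E] [BorelSpace E], OSFStmt E := fun E _ _ _ _ _ => osf_thm E
  have qOSL : ∀ (E : Type) [NormedAddCommGroup E] [InnerProductSpace ℝ E] [FiniteDimensional ℝ E] [MeasurableSpace E] [BorelSpace E], OSLStmt E := fun E _ _ _ _ _ => osl_thm qOSF E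
  have qTSP : ∀ (E : Type) [NormedAddCommGroup E] [InnerProductSpace ℝ E] [FiniteDimensional ℝ E] [MeasurableSpace E] [BorelSpace E], TSPStmt E := fun E _ _ _ _ _ => tsp_thm E (qMGL E)
  have qMGA : ∀ (E : Type) [NormedAddCommGroup E] [InnerProductSpace ℝ E] [FiniteDimensional ℝ E] [MeasurableSpace E] [BorelSpace E], MGAStmt E := fun E _ _ _ _ _ => mga_thm E qBAS (qMGL E)
  have qOS0 : ∀ (E : Type) [NormedAddCommGroup E] [InnerProductSpace ℝ E] [FiniteDimensional ℝ E] [MeasurableSpace E] [BorelSpace E], OS0Stmt E := fun E _ _ _ _ _ => os0_thm 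
  have qSPC : ∀ (E : Type) [NormedAddCommGroup E] [InnerProductSpace ℝ E] [FiniteDimensional ℝ E] [MeasurableSpace E] [BorelSpace E], SPCStmt E := fun E _ _ _ _ _ => spc_thm E
  have qCVL : ∀ (E : Type) [NormedAddCommGroup E] [InnerProductSpace ℝ E] [FiniteDimensional ℝ E] [MeasurableSpace E] [BorelSpace E], CVLStmt E := fun E _ _ _ _ _ => cvl_thm E
  have qT1P : T1PStmt := t1p_thm qBAS qKFB
  have qT1M : T1MStmt := t1m_thm qMGL qT1P
  have qROW : ROWStmt := row_thm qT1M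
  have qCHI : CHIStmt := chi_thm qKFB qMGL qOSL qTSP qMGA qOS0
  have qCHF : CHFStmt := chf_thm qMGL qCHI
  have qNUM : NUMStmt := num_thm 
  have qTHA : THAStmt := tha_thm qCVL qSPC qT1M qROW qCHF qNUM
  have qTKL : TKLStmt := tkl_thm qTHA
  have qTHB : THBStmt := thb_thm qBAS qPWB qRGC qBAY qFPB qTRP qFPI qTKL
  have qTHC : THCStmt := thc_thm qBAS qIMP qPWB qRGC qBAY qCVR qCOV qFPB qFPI qTHB
  have qSCL : SCLStmt := scl_thm qTHC
  have qLEX : ∀ (E : Type) [NormedAddCommGroup E] [InnerProductSpace ℝ E] [FiniteDimensional ℝ E] [MeasurableSpace E] [BorelSpace E], LEXStmt E := fun E _ _ _ _ _ => lex_thm E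
  have qBOD : BODStmt := bod_thm15 qSCL qLEX
  have qKRE : ∀ (E : Type) [NormedAddCommGroup E] [InnerProductSpace ℝ E] [FiniteDimensional ℝ E] [MeasurableSpace E] [BorelSpace E], KREStmt E := fun E _ _ _ _ _ => kre_thm E
  exact ⟨qBOD, qKRE⟩

end Pool.Agent.H73.KG
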