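import Pool.Agent.H19.KL.Stmts
import Pool.Agent.H51.Sym.P4b
import Pool.Agent.H84.Sym.P6a

/-!
# Project KG (`ψ_n ≤ C (log n log log n)^{1/4}`): definitions

`PP U t`: `exp (-U)` is a probability density and `Hess U ≥ t`.  `cv U f g` is the covariance of `f`
and `g`, `cm b U` the covariance matrix in the orthonormal basis `b`, `t3 U u v w` the third central
moment in the directions `u, v, w`.

The channel: `tp U s θ x = U x + s |x|² / 2 - ⟨θ, x⟩` is the (not normalised) potential of the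
posterior measure of `x` at time (precision) `s ≥ 0` when the natural parameter is `θ`; `pw` is the
normalised one, `pm U s θ F` the posterior mean of `F`; the natural parameter at time `s` is
`s x + √s g`, and `EX U s F` is the mean of `F (s x + √s g)`.
-/

set_option autoImplicit false

open MeasureTheory Set
open scoped ContDiff

namespace Pool.Agent.H73.KG

open Pool.Agent.H84 Pool.Agent.H84.Sym Pool.Agent.H84.Sym.P2x Pool.Agent.H19.KL

variable {E : Type} [NormedAddCommGroup E] [InnerProductSpace ℝ E]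
    [FiniteDimensional ℝ E] [MeasurableSpace E] [BorelSpace E]

/-- probability density `exp (-U)` with `Hess U ≥ t` -/
def PP (U : E → ℝ) (t : ℝ) : Prop := (∃ C : ℝ, Pot U t C) ∧ IsProbabilityMeasure (mu U)

/-- `PP` and `Hess U ≤ 1` -/
def BP (U : E → ℝ) (t : ℝ) : Prop :=
  PP U t ∧ ∀ x v : E, fderiv ℝ (fderiv ℝ U) x v v ≤ ‖v‖ ^ 2

/-- linear functional -/
def li (e x : E) : ℝ := inner ℝ e x

/-- mean of a linear functional -/
noncomputable def mn (U : E → ℝ) (e : E) : ℝ := ∫ x, li e x ∂(mu U)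

/-- covariance -/
noncomputable def cv (U f g : E → ℝ) : ℝ :=
  (∫ x, f x * g x ∂(mu U)) - (∫ x, f x ∂(mu U)) * ∫ x, g x ∂(mu U)

/-- covariance matrix -/
noncomputable def cm {ι : Type} [Fintype ι] (b : OrthonormalBasis ι ℝ E) (U : E → ℝ) :
    Matrix ι ι ℝ := Matrix.of fun i j => cv U (li (b i)) (li (b j))

/-- third central moments -/
noncomputable def t3 (U : E → ℝ) (u v w : E) : ℝ :=
  ∫ x, (li u x - mn U u) * (li v x - mn U v) * (li w x - mn U w) ∂(mu U)

/-- the covariance is at most `c` -/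
def CovLe (U : E → ℝ) (c : ℝ) : Prop := ∀ w : E, cv U (li w) (li w) ≤ c * ‖w‖ ^ 2

variable (E) in
/-- bound `K` for the third moments of all `τ`-uniformly log-concave measures with covariance
at most one -/
def TK (τ K : ℝ) : Prop := ∀ U : E → ℝ, PP U τ → CovLe U 1 → ∀ θ : E, ‖θ‖ = 1 →
  ∀ (ι : Type) [Fintype ι] (b : OrthonormalBasis ι ℝ E), ∑ i, ∑ j, (t3 U θ (b i) (b j)) ^ 2 ≤ K

/-- the potential of the posterior, not normalised -/
noncomputable def tp (U : E → ℝ) (s : ℝ) (θ x : E) : ℝ := U x + s * ‖x‖ ^ 2 / 2 - inner ℝ θ x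

/-- integrals against the tilted measure -/
noncomputable def ZF (U : E → ℝ) (s : ℝ) (θ : E) (F : E → ℝ) : ℝ :=
  ∫ x, F x * Real.exp (-tp U s θ x)

/-- the potential of the posterior, normalised -/
noncomputable def pw (U : E → ℝ) (s : ℝ) (θ x : E) : ℝ :=
  tp U s θ x + Real.log (ZF U s θ (fun _ => 1))

/-- posterior mean -/
noncomputable def pm (U : E → ℝ) (s : ℝ) (θ : E) (F : E → ℝ) : ℝ :=
  ZF U s θ F / ZF U s θ (fun _ => 1)

/-- the potential of the standard Gaussian measure -/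
noncomputable def gp (x : E) : ℝ := ‖x‖ ^ 2 / 2 + Real.log (gs E 1)

/-- the mean of `F (s x + √s g)`, `x` with potential `U`, `g` standard Gaussian -/
noncomputable def EX (U : E → ℝ) (s : ℝ) (F : E → ℝ) : ℝ :=
  ∫ x, (∫ g, F (s • x + Real.sqrt s • g) ∂(mu (gp (E := E)))) ∂(mu U)

/-- regular functions of `(s, θ)` -/
structure RG (G : ℝ → E → ℝ) : Prop where
  smooth : ContDiffOn ℝ 2 (Function.uncurry G) (Ioi 0 ×ˢ univ)
  cont : ContinuousOn (Function.uncurry G) (Ici 0 ×ˢ univ)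
  growth : ∀ S : ℝ, ∃ A B : ℝ, ∀ k ≤ 2, ∀ s ∈ Ioc 0 S, ∀ θ : E,
    ‖iteratedFDeriv ℝ k (Function.uncurry G) (s, θ)‖ ≤ A * Real.exp (B * ‖θ‖)

/-- the generator `∂_s + a · ∇ + Δ / 2` -/
noncomputable def gen {ι : Type} [Fintype ι] (b : OrthonormalBasis ι ℝ E) (U : E → ℝ)
    (G : ℝ → E → ℝ) (s : ℝ) (θ : E) : ℝ :=
  deriv (fun r => G r θ) s + (∑ i, pm U s θ (li (b i)) * D (b i) (G s) θ) +
    (∑ i, D (b i) (D (b i) (G s)) θ) / 2

section mat

variable {ι : Type} [Fintype ι] [DecidableEq ι]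

/-- `F_p (A) = tr A (A / (1 + A))^p` -/
noncomputable def FP (p : ℕ) (A : Matrix ι ι ℝ) : ℝ :=
  (A * (A * (1 + A)⁻¹) ^ p).trace

/-- the derivative `φ' (A)` -/
noncomputable def dFP (p : ℕ) (A : Matrix ι ι ℝ) : Matrix ι ι ℝ :=
  (A * (1 + A)⁻¹) ^ p * (1 + (p:ℝ) • (1 + A)⁻¹)

/-- the second derivative of `F_p` at `A` in the direction `H` -/
noncomputable def QQ (p : ℕ) (A H : Matrix ι ι ℝ) : ℝ :=
  (∑ a ∈ Finset.range p, ((A * (1 + A)⁻¹) ^ a * (1 + A)⁻¹ * H * (1 + A)⁻¹ *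
    (A * (1 + A)⁻¹) ^ (p - 1 - a) * (1 + (p:ℝ) • (1 + A)⁻¹) * H).trace) -
  p * ((A * (1 + A)⁻¹) ^ p * (1 + A)⁻¹ * H * (1 + A)⁻¹ * H).trace

end mat

end Pool.Agent.H73.KG
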