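import Pool.Agent.H73.KG.All

set_option autoImplicit false

open MeasureTheory
open scoped ENNReal NNReal

namespace Pool.Agent.Results.MP_dc1397_gt.FourthRoot

variable {n : ℕ}

/-- Euclidean space `ℝ^n`. -/
abbrev V (n : ℕ) : Type := EuclideanSpace ℝ (Fin n)

/-- `Ω` is a nonempty open bounded convex set with `Ω = -Ω`. -/
def IsBody (Ω : Set (V n)) : Prop :=
  Ω.Nonempty ∧ IsOpen Ω ∧ Bornology.IsBounded Ω ∧ Convex ℝ Ω ∧ ∀ x ∈ Ω, -x ∈ Ω

/-- The section of `Ω` by the hyperplane orthogonal to `a`. -/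
def hyperplaneSection (Ω : Set (V n)) (a : V n) : Set (V n) := {x | x ∈ Ω ∧ inner ℝ a x = (0 : ℝ)}

/-- Hausdorff measure of codimension one. -/
noncomputable def area (S : Set (V n)) : ℝ≥0∞ := μH[(n : ℝ) - 1] S

/-- The number `(log (n + 16) * log (log (n + 16))) ^ (1 / 4)`. -/
noncomputable def factor (n : ℕ) : ℝ :=
  (Real.log (n + 16) * Real.log (Real.log (n + 16))) ^ ((1 : ℝ) / 4)

/-- The hyperplane inequality of the question, for every symmetric convex body and every subset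
of half volume, with the factor `C * (log n * log log n) ^ (1 / 4)`; the hyperplane depends only
on the body. -/
theorem result :
    ∃ C : ℝ, 0 < C ∧ ∀ (n : ℕ) (Ω : Set (V n)), 1 ≤ n → IsBody Ω →
      ∃ a : V n, a ≠ 0 ∧ ∀ E : Set (V n), MeasurableSet E → E ⊆ Ω →
        volume E = volume Ω / 2 →
          area (hyperplaneSection Ω a) ≤
            ENNReal.ofReal (C * factor n) * area (Ω ∩ frontier E) := by
  obtain ⟨C, hC, H⟩ := Pool.Agent.H73.KG.final_thm Pool.Agent.H73.KG.all_thm.1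
    Pool.Agent.H73.KG.all_thm.2
  refine ⟨C, hC, ?_⟩
  intro n Ω hn ⟨hne, ho, hb, hc, hs⟩
  obtain ⟨n, rfl⟩ : ∃ k, n = k + 1 := ⟨n - 1, by omega⟩
  obtain ⟨a, ha, h⟩ := H n Ω ho hc hb hs hne
  refine ⟨a, fun h0 => by simp [h0] at ha, fun E hE hEΩ hEv => ?_⟩
  have h3 := h E hE hEΩ hEv
  have h4 : (((n + 1 : ℕ) : ℝ) - 1) = (n : ℝ) := by push_cast; ring
  simp only [area, h4]
  exact h3

end Pool.Agent.Results.MP_dc1397_gt.FourthRoot
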