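import Pool.Agent.H73.KG.Stmts

/-!
# Project KG: statements, second part (marginals, Theorem A, Lipschitz variance, bodies)
-/

set_option autoImplicit false

open MeasureTheory Set Filter Topology
open scoped ContDiff

namespace Pool.Agent.H73.KG

open Pool.Agent.H84 Pool.Agent.H84.Sym Pool.Agent.H84.Sym.P2x Pool.Agent.H19.KL

section fibres

/-- normalised potential of the fibre measure on `z + S` -/
noncomputable def fb {E : Type} [NormedAddCommGroup E] [InnerProductSpace ℝ E]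
    [FiniteDimensional ℝ E] [MeasurableSpace E] [BorelSpace E] (S : Submodule ℝ E) (U : E → ℝ)
    (z : Sᗮ) (x : S) : ℝ := U ((x : E) + (z : E)) + Real.log (pint S U (fun _ => 1) z)

/-- the functional of the `H^{-1}` bound -/
noncomputable def HH {E : Type} [NormedAddCommGroup E] [InnerProductSpace ℝ E]
    [FiniteDimensional ℝ E] [MeasurableSpace E] [BorelSpace E] {ι : Type} [Fintype ι]
    (b : OrthonormalBasis ι ℝ E) (m : ι → ℝ) (U φ : E → ℝ) : ℝ :=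
  4 * (∑ i, m i * cv U (li (b i)) (D (b i) φ)) - ∫ x, (∑ i, ‖fderiv ℝ (D (b i) φ) x‖ ^ 2) ∂(mu U)

/-- the pointwise inequality of the telescoping lemma -/
def OSI {E : Type} [NormedAddCommGroup E] [InnerProductSpace ℝ E] (U g W : E → ℝ) : Prop :=
  ContDiff ℝ 1 g ∧ Continuous W ∧ (∃ B : ℝ, ∀ x, |W x| ≤ B) ∧
  ∀ x X : E, 2 * fderiv ℝ g x X - fderiv ℝ (fderiv ℝ U) x X X ≤ W x

variable (E : Type) [NormedAddCommGroup E] [InnerProductSpace ℝ E]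
    [FiniteDimensional ℝ E] [MeasurableSpace E] [BorelSpace E]

/-- MGL: marginals and fibres -/
def MGLStmt : Prop := ∀ (U : E → ℝ) (t : ℝ), BP U t → ∀ S : Submodule ℝ E,
  BP (mg S U) t ∧ (∀ z, PP (fb S U z) t) ∧
  (∀ (z : Sᗮ) (F : E → ℝ), ∫ x : S, F ((x : E) + (z : E)) ∂(mu (fb S U z)) = cav S U F z) ∧
  (∀ F : E → ℝ, GC F → ∫ x, F x ∂(mu U) = ∫ z, cav S U F z ∂(mu (mg S U)) ∧
    Integrable (cav S U F) (mu (mg S U)) ∧ Continuous (cav S U F)) ∧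
  (∀ u v w : Sᗮ, t3 (mg S U) u v w = t3 U u v w ∧
    cv (mg S U) (li u) (li v) = cv U (li (u : E)) (li (v : E)) ∧ mn (mg S U) u = mn U u) ∧
  (∀ c : ℝ, CovLe U c → CovLe (mg S U) c)

/-- OSF: the telescoping lemma on one fibre -/
def OSFStmt : Prop := ∀ (V : E → ℝ) (t : ℝ), PP V t → ∀ (ι : Type) [Fintype ι]
  (b : OrthonormalBasis ι ℝ E) (m : ι → ℝ) (K : ℝ), (∀ φ : E → ℝ, Tst φ → HH b m V φ ≤ K) →
  ∀ k q g g1 W : E → ℝ, ContDiff ℝ 1 k → Gr k → ContDiff ℝ 1 g → Gr g → GC q → GC g1 → GC W →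
  (∀ x η : E, 2 * g1 x + 2 * fderiv ℝ g x η - q x - 2 * fderiv ℝ k x η -
    fderiv ℝ (fderiv ℝ V) x η η ≤ W x) →
  2 * ((∫ x, g1 x ∂(mu V)) - cv V g k -
      ∑ i, m i * cv V (fun x => (li (b i) x - mn V (b i)) ^ 2) k) -
    ((∫ x, q x ∂(mu V)) - cv V k k) ≤ (∫ x, W x ∂(mu V)) + K

/-- OSL: the telescoping lemma -/
def OSLStmt : Prop := ∀ (U : E → ℝ) (t : ℝ), BP U t → ∀ (S : Submodule ℝ E) (κ : Type)
  [Fintype κ] (c : OrthonormalBasis κ ℝ S) (m : κ → ℝ) (g W : E → ℝ) (K2 : Sᗮ → ℝ),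
  OSI U g W → Continuous K2 → (∃ B : ℝ, ∀ z, |K2 z| ≤ B) →
  (∀ (z : Sᗮ) (φ : S → ℝ), Tst φ → HH c m (fb S U z) φ ≤ K2 z) →
  OSI (mg S U)
    (fun z => cav S U g z + ∑ i, m i * cv (fb S U z) (li (c i)) (li (c i)))
    (fun z => cav S U W z + K2 z)

/-- TSP: splitting of the third moments -/
def TSPStmt : Prop := ∀ (U : E → ℝ) (t : ℝ), BP U t → ∀ (S : Submodule ℝ E) (κ : Type)
  [Fintype κ] (c : OrthonormalBasis κ ℝ S) (m : κ → ℝ) (θ : Sᗮ),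
  (∀ g : E → ℝ, GC g → cv U (li (θ : E)) g = cv (mg S U) (li θ) (cav S U g)) ∧
  (∀ g h : Sᗮ → ℝ, GC g → GC h →
    cv (mg S U) (li θ) (fun z => g z + h z) = cv (mg S U) (li θ) g + cv (mg S U) (li θ) h) ∧
  ∑ i, m i * t3 U θ (c i) (c i) =
    cv (mg S U) (li θ) (fun z => ∑ i, m i * cv (fb S U z) (li (c i)) (li (c i))) +
    cv (mg S U) (li θ) (fun z => ∑ i, m i * (cav S U (li ((c i : S) : E)) z - mn U (c i)) ^ 2)

/-- MGA: fluctuations of the fibre means and covariances -/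
def MGAStmt : Prop := ∀ (U : E → ℝ) (t : ℝ), BP U t → t ≤ 1 → CovLe U 5 →
  ∀ (S : Submodule ℝ E) (κ : Type) [Fintype κ] [DecidableEq κ] (c : OrthonormalBasis κ ℝ S),
  (∀ i j, Continuous (fun z => cm c (fb S U z) i j) ∧ ∀ z, |cm c (fb S U z) i j| ≤ 1 / t) ∧
  (∃ B : Matrix κ κ ℝ, B.IsHermitian ∧ ((5:ℝ) • (1 : Matrix κ κ ℝ) - B).PosSemidef ∧
    ∫ z, (∑ i, ∑ j, (cm c (fb S U z) i j - B i j) ^ 2) ∂(mu (mg S U)) ≤
      4 * Module.finrank ℝ Sᗮ / t ^ 3) ∧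
  ∀ (m : κ → ℝ) (β : ℝ), (∀ i, |m i| ≤ β) → 0 ≤ β → ∀ θ : Sᗮ, ‖θ‖ = 1 →
    |cv (mg S U) (li θ) (fun z => ∑ i, m i * (cav S U (li ((c i : S) : E)) z - mn U (c i)) ^ 2)| ≤
      2 * Real.sqrt 5 * Real.sqrt (Module.finrank ℝ Sᗮ) * β / t ^ 2

/-- OS0: the end of the telescoping -/
def OS0Stmt : Prop := ∀ (U : E → ℝ) (t : ℝ), BP U t → ∀ g W : E → ℝ, OSI U g W → ∀ θ : E,
  GC g ∧ 2 * cv U (li θ) g ≤ cv U (li θ) (li θ) + ∫ x, W x ∂(mu U)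

/-- SPC: coordinates in which the third moment matrix of `θ` is diagonal -/
def SPCStmt : Prop := ∀ (U : E → ℝ) (t : ℝ), PP U t → ∀ θ : E, ‖θ‖ = 1 →
  ∃ (e : ℕ → E) (m : ℕ → ℝ),
    (∀ i < Module.finrank ℝ E - 1, ∀ j < Module.finrank ℝ E - 1,
      inner ℝ (e i) (e j) = (if i = j then (1:ℝ) else 0) ∧
      t3 U θ (e i) (e j) = (if i = j then m i else 0)) ∧
    (∀ i < Module.finrank ℝ E - 1, inner ℝ θ (e i) = (0:ℝ)) ∧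
    (∀ i, Module.finrank ℝ E - 1 ≤ i → m i = 0) ∧
    (∀ i j, i ≤ j → |m j| ≤ |m i|) ∧
    ∀ (ι : Type) [Fintype ι] (b : OrthonormalBasis ι ℝ E),
      ∑ i, ∑ j, (t3 U θ (b i) (b j)) ^ 2 = (∑ i ∈ Finset.range (Module.finrank ℝ E - 1), (m i) ^ 2) +
        2 * (∑ i ∈ Finset.range (Module.finrank ℝ E - 1), (t3 U θ θ (e i)) ^ 2) + (t3 U θ θ θ) ^ 2

/-- CVL: convolution with the standard Gaussian measure -/
def CVLStmt : Prop := ∀ τ K : ℝ, 0 < τ → τ ≤ 1 →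
  (∀ U : E → ℝ, BP U (τ / 2) → CovLe U 5 → ∀ θ : E, ‖θ‖ = 1 →
    ∀ (ι : Type) [Fintype ι] (b : OrthonormalBasis ι ℝ E), ∑ i, ∑ j, (t3 U θ (b i) (b j)) ^ 2 ≤ K) →
  TK E τ K

end fibres

/-- T1P: third moments against a matrix, all dimensions -/
def T1PStmt : Prop := ∃ C : ℝ, 1 ≤ C ∧ ∀ (E : Type) [NormedAddCommGroup E] [InnerProductSpace ℝ E]
    [FiniteDimensional ℝ E] [MeasurableSpace E] [BorelSpace E] (U : E → ℝ) (t : ℝ), PP U t →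
  CovLe U 5 → ∀ (ι : Type) [Fintype ι] (b : OrthonormalBasis ι ℝ E) (m : ι → ℝ) (β : ℝ),
  (∀ i, |m i| ≤ β) → 0 ≤ β → ∀ θ : E, ‖θ‖ ≤ 1 →
  |∑ i, m i * t3 U θ (b i) (b i)| ≤ C * β * Real.sqrt (Fintype.card ι)

/-- T1M: third moments against a matrix of small rank -/
def T1MStmt : Prop := ∃ C : ℝ, 1 ≤ C ∧ ∀ (E : Type) [NormedAddCommGroup E] [InnerProductSpace ℝ E]
    [FiniteDimensional ℝ E] [MeasurableSpace E] [BorelSpace E] (U : E → ℝ) (t : ℝ), BP U t →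
  CovLe U 5 → ∀ (κ : Type) [Fintype κ] (e : κ → E), Orthonormal ℝ e → ∀ (m : κ → ℝ) (β : ℝ),
  (∀ i, |m i| ≤ β) → 0 ≤ β → ∀ θ : E, ‖θ‖ = 1 →
  |∑ i, m i * t3 U θ (e i) (e i)| ≤ C * β * Real.sqrt (Fintype.card κ + 1)

/-- ROW: the row of `θ` -/
def ROWStmt : Prop := ∃ C : ℝ, 1 ≤ C ∧ ∀ (E : Type) [NormedAddCommGroup E] [InnerProductSpace ℝ E]
    [FiniteDimensional ℝ E] [MeasurableSpace E] [BorelSpace E] (U : E → ℝ) (t : ℝ), BP U t →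
  CovLe U 5 → ∀ θ : E, ‖θ‖ = 1 → (t3 U θ θ θ) ^ 2 ≤ C ∧
  ∀ (κ : Type) [Fintype κ] (e : κ → E), Orthonormal ℝ e → (∀ i, inner ℝ θ (e i) = (0:ℝ)) →
  ∑ i, (t3 U θ θ (e i)) ^ 2 ≤ C

/-- the blocks -/
structure Blk {E : Type} [NormedAddCommGroup E] [InnerProductSpace ℝ E] (t : ℝ) (r : ℕ) (θ : E)
    (d : ℕ → ℕ) (e : ℕ → ℕ → E) (m : ℕ → ℕ → ℝ) (β Dd : ℕ → ℝ) : Prop where
  unit : ‖θ‖ = 1
  perp : ∀ j < r, ∀ i < d j, inner ℝ θ (e j i) = (0:ℝ)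
  orth : ∀ j < r, ∀ i < d j, ∀ j' < r, ∀ i' < d j',
    inner ℝ (e j i) (e j' i') = (if j = j' ∧ i = i' then (1:ℝ) else 0)
  coef : ∀ j < r, ∀ i < d j, |m j i| ≤ β j
  nonneg : ∀ j < r, 0 ≤ β j
  size : ∀ j < r, (d j : ℝ) ≤ Dd j
  big : ∀ j < r, 1 + ∑ i ∈ Finset.range j, (d i : ℝ) ≤ Dd j * t ^ 7

/-- CHI: the chain of blocks, inductive form -/
def CHIStmt : Prop := ∃ C : ℝ, 1 ≤ C ∧ ∀ (r : ℕ) (E : Type) [NormedAddCommGroup E]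
    [InnerProductSpace ℝ E] [FiniteDimensional ℝ E] [MeasurableSpace E] [BorelSpace E]
    (U : E → ℝ) (t : ℝ), BP U t → t ≤ 1 → CovLe U 5 →
  ∀ (θ : E) (d : ℕ → ℕ) (e : ℕ → ℕ → E) (m : ℕ → ℕ → ℝ) (β Dd : ℕ → ℝ),
  Blk t r θ d e m β Dd → Module.finrank ℝ E ≤ 1 + ∑ j ∈ Finset.range r, d j →
  ∀ g W : E → ℝ, OSI U g W →
  2 * cv U (li θ) g + 2 * ∑ j ∈ Finset.range r, ∑ i ∈ Finset.range (d j),
      m j i * t3 U θ (e j i) (e j i) ≤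
    cv U (li θ) (li θ) + (∫ x, W x ∂(mu U)) + C * ∑ j ∈ Finset.range r,
      (β j ^ 2 * Dd j + β j * Real.sqrt (1 + ∑ i ∈ Finset.range j, (d i : ℝ)) / t ^ 2)

/-- CHF: the chain of blocks -/
def CHFStmt : Prop := ∃ C : ℝ, 1 ≤ C ∧ ∀ (E : Type) [NormedAddCommGroup E]
    [InnerProductSpace ℝ E] [FiniteDimensional ℝ E] [MeasurableSpace E] [BorelSpace E]
    (U : E → ℝ) (t : ℝ), BP U t → t ≤ 1 → CovLe U 5 →
  ∀ (r : ℕ) (θ : E) (d : ℕ → ℕ) (e : ℕ → ℕ → E) (m : ℕ → ℕ → ℝ) (β Dd : ℕ → ℝ),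
  Blk t r θ d e m β Dd →
  ∑ j ∈ Finset.range r, ∑ i ∈ Finset.range (d j), m j i * t3 U θ (e j i) (e j i) ≤
    C * Real.sqrt (∑ j ∈ Finset.range r, β j ^ 2 * Dd j) + C * ∑ j ∈ Finset.range r,
      β j * Real.sqrt (1 + ∑ i ∈ Finset.range j, (d i : ℝ)) / t ^ 2

/-- sum over the dyadic block `l`, that is `2^l ≤ i + 1 < 2^(l+1)` -/
noncomputable def BB (m : ℕ → ℝ) (l : ℕ) : ℝ := ∑ i ∈ Finset.Ico (2 ^ l - 1) (2 ^ (l + 1) - 1), m i ^ 2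

/-- NUM: the summation over the blocks -/
def NUMStmt : Prop := ∀ (N g : ℕ) (C t : ℝ) (m : ℕ → ℝ), 1 ≤ g → 1 ≤ C → 0 < t → t ≤ 1 →
  (∀ i, N ≤ i → m i = 0) → (∀ i j, i ≤ j → |m j| ≤ |m i|) →
  (∀ l, BB m l ≤ C * |m (2 ^ l - 1)| * Real.sqrt (2 ^ l + 1)) →
  (∀ a < g, ∀ r : ℕ, ∑ j ∈ Finset.range r, BB m (g + a + j * g) ≤
    C * Real.sqrt (∑ j ∈ Finset.range r, |m (2 ^ (g + a + j * g) - 1)| ^ 2 * 2 ^ (g + a + j * g)) +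
    C * ∑ j ∈ Finset.range r, |m (2 ^ (g + a + j * g) - 1)| * Real.sqrt (2 ^ (a + j * g + 2)) / t ^ 2) →
  1 + (Nat.log 2 (N + 1) : ℝ) ≤ 2 ^ g * t ^ 4 →
  ∑ i ∈ Finset.range N, m i ^ 2 ≤ 40 * C ^ 2 * g

/-- THA: the third moments of uniformly log-concave measures -/
def THAStmt : Prop := ∃ C : ℝ, 1 ≤ C ∧ ∀ (E : Type) [NormedAddCommGroup E]
    [InnerProductSpace ℝ E] [FiniteDimensional ℝ E] [MeasurableSpace E] [BorelSpace E]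
    (τ : ℝ) (g : ℕ), 0 < τ → τ ≤ 1 → 1 ≤ g →
  C * (1 + Nat.log 2 (Module.finrank ℝ E + 1)) ≤ 2 ^ g * τ ^ 7 → TK E τ (C * g)

/-- `log (n + 16)` -/
noncomputable def L1 (n : ℕ) : ℝ := Real.log (n + 16)

/-- `log log (n + 16)` -/
noncomputable def L2 (n : ℕ) : ℝ := Real.log (L1 n)

/-- TKL: the same with real parameters -/
def TKLStmt : Prop := ∃ C : ℝ, 1 ≤ C ∧ ∀ (E : Type) [NormedAddCommGroup E]
    [InnerProductSpace ℝ E] [FiniteDimensional ℝ E] [MeasurableSpace E] [BorelSpace E]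
    (s : ℝ), 0 < s → s ≤ 1 / 2 →
  TK E (s / 2) (C * (Real.log (1 / s) + L2 (Module.finrank ℝ E)))

/-- THB: the operator norm of the covariance along the channel -/
def THBStmt : Prop := ∃ c : ℝ, 0 < c ∧ c ≤ 1 / 2 ∧ ∀ (E : Type) [NormedAddCommGroup E]
    [InnerProductSpace ℝ E] [FiniteDimensional ℝ E] [MeasurableSpace E] [BorelSpace E]
    (U : E → ℝ) (t : ℝ), PP U t → CovLe U 1 → ∀ (ι : Type) [Fintype ι] [DecidableEq ι]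
    (b : OrthonormalBasis ι ℝ E) (s : ℝ), 0 < s →
  s ≤ c / (L1 (Module.finrank ℝ E) * L2 (Module.finrank ℝ E)) → ∃ p : ℕ, 1 ≤ p ∧
  EX U s (fun θ => (3 + (4 / 3) ^ p * FP p (cm b (pw U s θ))) ^ ((3:ℝ) / 2)) ≤ 10

/-- THC: variance of Lipschitz functions, covariance at most one -/
def THCStmt : Prop := ∃ C : ℝ, 1 ≤ C ∧ ∀ (E : Type) [NormedAddCommGroup E]
    [InnerProductSpace ℝ E] [FiniteDimensional ℝ E] [MeasurableSpace E] [BorelSpace E]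
    (U : E → ℝ) (t : ℝ), PP U t → CovLe U 1 → ∀ f : E → ℝ, ContDiff ℝ 1 f →
  (∀ x, ‖fderiv ℝ f x‖ ≤ 1) →
  cv U f f ≤ C * Real.sqrt (L1 (Module.finrank ℝ E) * L2 (Module.finrank ℝ E))

/-- SCL: scaling -/
def SCLStmt : Prop := ∃ C : ℝ, 1 ≤ C ∧ ∀ (E : Type) [NormedAddCommGroup E]
    [InnerProductSpace ℝ E] [FiniteDimensional ℝ E] [MeasurableSpace E] [BorelSpace E]
    (U : E → ℝ) (t a M : ℝ), PP U t → 0 < a → CovLe U a → 0 ≤ M → ∀ f : E → ℝ, ContDiff ℝ 1 f →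
  (∀ x, ‖fderiv ℝ f x‖ ≤ M) →
  cv U f f ≤ C * a * M ^ 2 * Real.sqrt (L1 (Module.finrank ℝ E) * L2 (Module.finrank ℝ E))

/-- `L^1` bound for Lipschitz functions on a body -/
def PL {E : Type} [NormedAddCommGroup E] [InnerProductSpace ℝ E]
    [FiniteDimensional ℝ E] [MeasurableSpace E] [BorelSpace E] (K : Set E) (Λ : ℝ) : Prop :=
  ∀ g : E → ℝ, ContDiff ℝ 1 g → ∀ M : ℝ, 0 ≤ M → (∀ x ∈ K, ‖fderiv ℝ g x‖ ≤ M) →
    ∃ c : ℝ, ∫ x in K, |g x - c| ≤ Λ * M * volume.real K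

/-- LEX: smooth Lipschitz extension from a convex set, up to `ε` -/
def LEXStmt (E : Type) [NormedAddCommGroup E] [InnerProductSpace ℝ E]
    [FiniteDimensional ℝ E] [MeasurableSpace E] [BorelSpace E] : Prop :=
  ∀ (K : Set E) (g : E → ℝ) (M ε : ℝ), Convex ℝ K → K.Nonempty → ContDiff ℝ 1 g → 0 ≤ M →
  (∀ x ∈ K, ‖fderiv ℝ g x‖ ≤ M) → 0 < ε →
  ∃ f : E → ℝ, ContDiff ℝ 1 f ∧ (∀ x, ‖fderiv ℝ f x‖ ≤ M) ∧ ∀ x ∈ K, |f x - g x| ≤ ε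

/-- BOD: Lipschitz functions on bodies -/
def BODStmt : Prop := ∃ C : ℝ, 1 ≤ C ∧ ∀ (E : Type) [NormedAddCommGroup E]
    [InnerProductSpace ℝ E] [FiniteDimensional ℝ E] [MeasurableSpace E] [BorelSpace E]
    (K : Set E) (R s : ℝ), CB K R → 0 < s →
  (∀ v : E, ∫ x in K, (inner ℝ v x) ^ 2 ≤ s ^ 2 * ‖v‖ ^ 2 * volume.real K) →
  PL K (C * s * (L1 (Module.finrank ℝ E) * L2 (Module.finrank ℝ E)) ^ ((1:ℝ) / 4))

/-- KRE: from the bound for Lipschitz functions to the hyperplane inequality -/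
def KREStmt (E : Type) [NormedAddCommGroup E] [InnerProductSpace ℝ E]
    [FiniteDimensional ℝ E] [MeasurableSpace E] [BorelSpace E] : Prop :=
  ∀ n : ℕ, Module.finrank ℝ E = n + 1 → ∀ Ω : Set E, IsOpen Ω → Convex ℝ Ω →
  Bornology.IsBounded Ω → (∀ x ∈ Ω, -x ∈ Ω) → Ω.Nonempty →
  ∃ a : E, ‖a‖ = 1 ∧ ∃ s : ℝ, 0 < s ∧
    (∀ v : E, ∫ x in Ω, (inner ℝ v x) ^ 2 ≤ s ^ 2 * ‖v‖ ^ 2 * volume.real Ω) ∧
    ∀ c : ℝ, 0 < c → PL Ω (c * s) →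
      ∀ S : Set E, MeasurableSet S → S ⊆ Ω → volume S = volume Ω / 2 →
        μH[(n:ℝ)] {x | x ∈ Ω ∧ inner ℝ a x = (0:ℝ)}
          ≤ ENNReal.ofReal (7300 * c) * μH[(n:ℝ)] (Ω ∩ frontier S)

end Pool.Agent.H73.KG
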